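import Pool.Agent.D0H31.SG.Brg

/-!
# The sign conjecture and the invariant pieces of the tensor powers of a motive

Let `W` be a Weil cohomology theory with coefficient field `K` (crystalline cohomology over a perfect
field, say), on a class of smooth proper varieties closed under products. An operator on `H(Z)` is
called algebraic (`alg W Z`) if it is a `K`-combination of correspondences of degree zero. Let
`M = (X, e)` be a motive for homological equivalence: `e` is an algebraic idempotent. Its realisation
is `V = e H(X)`, the sum of the even part `V⁺` and the odd part `V⁻`. The sign conjecture for `M`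
(`Sign W X e`) says that the operator which is `e` on the even and zero on the odd cohomology is
algebraic; for `e = 1` it is `C⁺(X)`. A direct summand of `M ⊗ ... ⊗ M` (`n` factors) or of
`N ⊗ M ⊗ ... ⊗ M`, `N = (Y, f)`, is given by an algebraic idempotent `ε` on the cohomology of `X ^ n` or
of `Y × X ^ n` (`Piece`, `PieceIn`).

**Theorem.** Let `L` be a set of operators on `V` which preserve the parity, such that every algebraic
operator on `M` which commutes with `L` has only one eigenvalue on `V⁺` and only one eigenvalue on `V⁻`
(`Rigid`). Let `n ≥ 1` and let `ε ≠ 0` be a direct summand of `M ⊗ ... ⊗ M` or of `N ⊗ M ⊗ ... ⊗ M`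
which commutes with the derivations `G ⊗ 1 ⊗ ... ⊗ 1 + ... + 1 ⊗ ... ⊗ 1 ⊗ G`, `G` in `L`, and which
is compatible with the number of odd factors in `V ⊗ ... ⊗ V` (`Invariant`, `InvariantIn`). If the sign
conjecture holds for `ε` then it holds for `M`. (Conversely it is inherited by `ε` from `M` and `N`.)

The condition on `L` is satisfied in the following cases.

* `L` is the set of all operators on `V` which preserve the parity, for every `M`. The summands are those
  which are natural for the even linear maps of `V`: all sums of pieces `S_μ(V⁺) ⊗ S_ν(V⁻)`. So `C⁺(X)`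
  holds as soon as the projector onto one nonzero piece `S_μ(H⁺) ⊗ S_ν(H⁻)` of one `H(X)^(⊗ n)` is
  algebraic. For `ε` in the group algebra of the symmetric group this is in the starting library
  (Schur functors).
* `L` is empty and `M` is absolutely indecomposable; then the sign conjecture says that `M` is pure,
  `V⁺ = 0` or `V⁻ = 0`. Also, if all algebraic operators commute with a group (a Galois group, say) which
  acts absolutely irreducibly on `V⁺` and on `V⁻`.

If `V` is contained in `H^i(X) + H^j(X)`, `i` even and `j` odd, then all summands of `M ⊗ ... ⊗ M` are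
compatible with the number of odd factors. So if such an `M` is absolutely indecomposable and not pure
then no nonzero direct summand of any of its tensor powers satisfies the sign conjecture.

The proof. If `ε` and its even part are algebraic then so is `A = par ε`, and `A` contracted with all
but one of the factors `X` (and `Y`) is an algebraic operator `T` on `M` with `tr(ε Δ(F)) = str(T F)` for
all even `F`, where `Δ(F)` is the derivation. As `ε` commutes with `Δ(G)`, `T` commutes with `G` in `L`; so
`T` has one eigenvalue `a` on `V⁺` and one eigenvalue `b` on `V⁻`. But `tr(ε Δ(p))`, `p` the projector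
onto `V⁺` or `V⁻`, is a natural number, since `Δ(p)` has the eigenvalues `0, ..., n`, and their sum is
`n rank ε`, positive. Hence `a dim V⁺` and `- b dim V⁻` are natural numbers and not both zero: either `V⁺`
or `V⁻` is zero or `a ≠ b`, and then the projector onto `V⁺` is a polynomial in `T`.
-/

set_option autoImplicit false

open CategoryTheory AlgebraicGeometry

universe u v

namespace Pool.Agent.Results.MP_fd35e1_ag.InvariantPieces

open Pool.Agent.H914 VarClass Obj WeilCohomology Pool.Agent.N103.OC Pool.Agent.TH133.PW
  Pool.Agent.H447 Pool.Agent.D0H31 Pool.Agent.D0H31.SG Pool.Agent.D0H31.SG.St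

/-- **The sign conjecture descends from the invariant pieces of the tensor powers.** -/
theorem result {k : Type u} [Field k] {𝒱 : VarClass k} {ops : CycleOps 𝒱}
    (W : WeilCohomology.{u, v} ops) (X : 𝒱.Obj) (e : Op W X) (he : IsIdem (alg W X) e) :
    (∀ L ⊆ parOps W X e, Rigid W X e L →
      (∀ n, 1 ≤ n → ∀ ε, Piece W X e n ε → Invariant W X e L n ε →
        (Sign W (pw X n) ε ↔ Sign W X e)) ∧
      (∀ (Y : 𝒱.Obj), ∀ f ∈ alg W Y, ∀ n, 1 ≤ n → ∀ ε, PieceIn W Y X f e n ε →
        InvariantIn W Y X e L n ε →
        (Sign W (Y.prod (pw X n)) ε → Sign W X e) ∧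
        (Sign W Y f → Sign W X e → Sign W (Y.prod (pw X n)) ε))) ∧
    Rigid W X e (parOps W X e) ∧
    (Indec W X e → Rigid W X e ∅ ∧ (Sign W X e ↔ IsPure W X e)) ∧
    (∀ i j, Even i → Odd j → InDegrees W X e i j → ∀ n, 1 ≤ n → ∀ ε, Piece W X e n ε →
      Invariant W X e ∅ n ε ∧ (Indec W X e → ¬ IsPure W X e → ¬ Sign W (pw X n) ε)) ∧
    (Sign W X 1 ↔ SignStd W X) := by
  obtain ⟨he, hee⟩ := he
  rw [mem_alg] at he
  refine ⟨fun L hL hrig => ⟨fun n hn ε h1 h2 => ?_, fun Y f hf n hn ε h1 h2 => ?_⟩,
    ?_, fun h => ⟨rigid_of_indecomposable h _, signOf_iff_pure he hee h⟩,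
    fun i j hi hj hd n hn ε h1 => ?_, signOf_one_iff⟩
  · rw [parOps_eq] at hL
    rw [isInvariant_iff hn h1] at h2
    exact (signOf_iff_invariant he hee hL hrig hn (mem_alg.1 h1.idem.1) h2 h1.ne).symm
  · rw [parOps_eq] at hL
    rw [mem_alg] at hf
    have h3 := isInvariantIn_of hn h1 h2
    have hε := mem_alg.1 h1.idem.1
    exact ⟨signOf_of_invariantIn he hee hL hrig hn hε h3 h1.ne,
      signOf_invariantIn hf he hε h3.left⟩
  · rw [parOps_eq]
    exact rigid_parityOps he hee
  · have hε := mem_alg.1 h1.idem.1
    have h2 := summand_of_piece h1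
    have h4 : SG.IsInvariant W e ∅ n ε :=
      ⟨h2, even_of_inDegrees hee hi hj hd hn hε h2.left h2.right he,
        fun G hG => absurd hG (Set.notMem_empty G)⟩
    refine ⟨(isInvariant_iff hn h1).2 h4, fun h5 h6 h7 => h6 ?_⟩
    rw [isPure_iff, ← signOf_iff_pure he hee h5]
    exact (signOf_iff_invariant he hee (Set.empty_subset _) (rigid_of_indecomposable h5 _) hn hε
      h4 h1.ne).2 h7

end Pool.Agent.Results.MP_fd35e1_ag.InvariantPieces
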