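import Pool.Agent.D0H31.SG.Cen

/-!
# The sign conjecture and the super centre of an indecomposable motive

Let `W` be a Weil cohomology theory with coefficient field `K` (crystalline cohomology over a perfect
field, say), `M = (X, e)` an absolutely indecomposable motive for homological equivalence: `e` is an
algebraic idempotent, and each algebraic operator on `V = e H(X)` is the sum of a scalar and a nilpotent
operator. Write `d_i` for the dimension of `V^i`, `S = ∑ (-1)^i d_i` for the super dimension and
`C = ∑ (-1)^i i d_i`; if `S ≠ 0` then `C / S` is the super centre of `M`. A direct summand `ε ≠ 0` of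
`M ⊗ ... ⊗ M` (`n` factors) or of `N ⊗ M ⊗ ... ⊗ M` is given by an algebraic idempotent; `t_D` is the
dimension of its image in degree `D`.

**Theorem.** (1) All direct summands `ε` of `M ⊗ ... ⊗ M` have the super centre `n C / S`, that is
`S ∑ (-1)^D D t_D = n (∑ (-1)^D t_D) C`.

(2) If the sign conjecture holds for one direct summand `ε ≠ 0` of one tensor power `M ⊗ ... ⊗ M` then `S ≠ 0` and the
mean degree of `ε` is `n C / S`, that is `S ∑ D t_D = n (∑ t_D) C`. Hence the super centre `C / S` lies
between the lowest and the highest degree of `V`.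

(3) If the sign conjecture holds for one direct summand `ε ≠ 0` of `N ⊗ M ⊗ ... ⊗ M`, `n ≥ 1`, `N` any motive, then `S ≠ 0`.

The sign conjecture for `M` itself says that `V` is even or odd, and then (2) is clear. For a motive with
an even and an odd part it is a strong restriction, for example it is never satisfied if `V` is contained
in `H^i(X) + H^j(X)`, `i` even and `j` odd, and for `V = V^0 + V^1 + V^2` with `S > 0` it says
that `d_1 ≤ 2 d_0` and `d_1 ≤ 2 d_2`. So the failure of the sign conjecture for such a motive is inherited by all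
direct summands of all its tensor powers. In contrast to the theorem on invariant pieces (`InvariantPieces`) nothing
is assumed about the relation of `ε` to the Künneth components of `V ⊗ ... ⊗ V`.

The proof. Let `A = ε`, or `A = par ε` if the sign conjecture holds for `ε`. The contraction of `A` with all factors but
one is an algebraic operator on `M`, the sum of a scalar `z` and a nilpotent operator, and the super traces of `A Δ(F)` are
`z` times the super trace of `F`, where `Δ(F) = F ⊗ 1 ⊗ ... ⊗ 1 + ... + 1 ⊗ ... ⊗ 1 ⊗ F`. Take for `F` the identity and the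
operator which is `i` on `V^i`: then `Δ(F)` is `n`, resp. the total degree, which commutes with `ε`. For `A = par ε` the
super traces of `A` and of `A Δ(F)` are the rank and the sum of the degrees of `ε`.
-/

set_option autoImplicit false

open CategoryTheory AlgebraicGeometry

universe u v

namespace Pool.Agent.Results.MP_fd35e1_ag.SuperCentre

open Pool.Agent.H914 VarClass Obj WeilCohomology Pool.Agent.N103.OC Pool.Agent.TH133.PW
  Pool.Agent.H447 Pool.Agent.D0H31 Pool.Agent.D0H31.SG Pool.Agent.D0H31.SG.St

/-- **The super centre of an absolutely indecomposable motive and the sign conjecture for the direct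
summands of its tensor powers.** -/
theorem result {k : Type u} [Field k] {𝒱 : VarClass k} {ops : CycleOps 𝒱}
    (W : WeilCohomology.{u, v} ops) (X : 𝒱.Obj) (e : Op W X) (he : IsIdem (alg W X) e)
    (hind : Indec W X e) :
    (∀ n, 1 ≤ n → ∀ ε, Piece W X e n ε →
      Mom W X e (fun i => (-1) ^ i) * Mom W (pw X n) ε (fun i => (-1) ^ i * i) =
        n * Mom W (pw X n) ε (fun i => (-1) ^ i) * Mom W X e (fun i => (-1) ^ i * i)) ∧
    (∀ n, 1 ≤ n → ∀ ε, Piece W X e n ε → Sign W (pw X n) ε →
      Mom W X e (fun i => (-1) ^ i) ≠ 0 ∧ 0 < Mom W (pw X n) ε (fun _ => 1) ∧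
      Mom W X e (fun i => (-1) ^ i) * Mom W (pw X n) ε (fun i => i) =
        n * Mom W (pw X n) ε (fun _ => 1) * Mom W X e (fun i => (-1) ^ i * i) ∧
      ∀ a b : ℕ, Between W X e a b →
        0 ≤ (Mom W X e (fun i => (-1) ^ i * i) - a * Mom W X e (fun i => (-1) ^ i)) *
          (b * Mom W X e (fun i => (-1) ^ i) - Mom W X e (fun i => (-1) ^ i * i))) ∧
    (∀ (Y : 𝒱.Obj), ∀ f ∈ alg W Y, ∀ n, 1 ≤ n → ∀ ε, PieceIn W Y X f e n ε →
      Sign W (Y.prod (pw X n)) ε → Mom W X e (fun i => (-1) ^ i) ≠ 0) := by
  obtain ⟨he, hee⟩ := he
  rw [mem_alg] at he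
  refine ⟨fun n hn ε h => centre_super he hee hind hn (summand_of_piece h),
    fun n hn ε h hs => ⟨?_, mom_pos (mem_alg.1 h.idem.1) h.idem.2 h.ne,
      centre_sign he hee hind hn (summand_of_piece h) hs,
      fun a b hab => centre_bounds he hee hind hn (summand_of_piece h) h.ne hs hab⟩,
    fun Y f _ n hn ε h hs => ?_⟩
  · obtain ⟨m, rfl⟩ : ∃ m, n = m + 1 := ⟨n - 1, by omega⟩
    have h1 := summand_of_piece h
    exact sdim_ne (derLike_pw hee m) (by omega) he hee hind (par_powOp he (m + 1))
      (mem_alg.1 h.idem.1) h.idem.2 h1.left h1.right h.ne hs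
  · obtain ⟨m, rfl⟩ : ∃ m, n = m + 1 := ⟨n - 1, by omega⟩
    have h1 := summand_of_pieceIn h
    have hl : extOp W 1 (powOp W e (m + 1)) * ε = ε := by
      conv_lhs => rw [← h1.left]
      rw [← mul_assoc, extOp_mul, one_mul, powOp_idem hee, h1.left]
    have hr : ε * extOp W 1 (powOp W e (m + 1)) = ε := by
      conv_lhs => rw [← h1.right]
      rw [mul_assoc, extOp_mul, mul_one, powOp_idem hee, h1.right]
    exact sdim_ne ((derLike_pw hee m).rel Y) (by omega) he hee hind
      (par_extOp (powOp_mem he (m + 1)) Y)
      (mem_alg.1 h.idem.1) h.idem.2 hl hr h.ne hs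

end Pool.Agent.Results.MP_fd35e1_ag.SuperCentre
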